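import Pool.Agent.helper84.QI.Spec

/-!
# Row TTW: the first theorem (assembly)
-/

set_option autoImplicit false

namespace Pool.Agent.QI

lemma TTW_fibre {G : Type} [Group G] (u i : G)
    (h : (Subgroup.centralizer ({u} : Set G) : Set G).Finite) : {g : G | g⁻¹ * u * g = i}.Finite := by
  by_cases hne : ∃ g₀ : G, g₀⁻¹ * u * g₀ = i
  · obtain ⟨g₀, hg₀⟩ := hne
    refine (h.image fun c => c * g₀).subset ?_
    intro g hg
    refine ⟨g * g₀⁻¹, ?_, by group⟩
    have hg' : g⁻¹ * u * g = g₀⁻¹ * u * g₀ := by rw [hg₀]; exact hg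
    change g * g₀⁻¹ ∈ Subgroup.centralizer ({u} : Set G)
    rw [Subgroup.mem_centralizer_singleton_iff]
    have h1 : g * (g⁻¹ * u * g) * g₀⁻¹ = g * (g₀⁻¹ * u * g₀) * g₀⁻¹ := by rw [hg']
    have h2 : g * (g⁻¹ * u * g) * g₀⁻¹ = u * (g * g₀⁻¹) := by group
    have h3 : g * (g₀⁻¹ * u * g₀) * g₀⁻¹ = g * g₀⁻¹ * u := by group
    rw [h2, h3] at h1
    exact h1.symm
  · have : {g : G | g⁻¹ * u * g = i} = ∅ := by
      ext g
      simp only [Set.mem_setOf_eq, Set.mem_empty_iff_false, iff_false]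
      exact fun hg => hne ⟨g, hg⟩
    rw [this]
    exact Set.finite_empty

lemma TTW_conj {G : Type} [Group G] (u : G) : Group.conjugatesOfSet ({u} : Set G) = {i : G | ∃ g : G, i = g⁻¹ * u * g} := by
  ext x
  rw [Group.mem_conjugatesOfSet_iff]
  constructor
  · rintro ⟨v, hv, hc⟩
    rw [Set.mem_singleton_iff] at hv
    subst hv
    obtain ⟨c, hc⟩ := isConj_iff.mp hc
    exact ⟨c⁻¹, by rw [inv_inv]; exact hc.symm⟩
  · rintro ⟨g, hg⟩
    refine ⟨u, rfl, isConj_iff.mpr ⟨g⁻¹, ?_⟩⟩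
    rw [inv_inv]
    exact hg.symm

theorem TTW (hNIN : NIN_stmt) (hCEN : CEN_stmt) (hDIC : DIC_stmt) (hCQF : CQF_stmt) (hBSQ : BSQ_stmt)
    (hBPW : BPW_stmt) (hSYC : SYC_stmt) (hULT : ULT_stmt) (hQSB : QSB_stmt) (hPSL : PSL_stmt)
    (hQFI : QFI_stmt) : TTW_stmt := by
  intro G _ hinf a b hgen u hu hu2 hSyl hcase hcase2
  by_contra hfin
  rw [Set.not_infinite] at hfin
  have hCE : CE a b := ⟨hgen, hinf, hfin⟩
  have hcu : (Subgroup.centralizer ({u} : Set G) : Set G).Finite := by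
    rcases hcase with h | h
    · exact h
    · exact hDIC G a b hCE u hu h
  have huu : u * u = 1 := by rw [← pow_two]; exact hu2
  have hu1 : u ≠ 1 := by
    rintro rfl
    apply Set.infinite_univ (α := G)
    refine hcu.subset fun x _ => ?_
    change x ∈ Subgroup.centralizer ({1} : Set G)
    rw [Subgroup.mem_centralizer_singleton_iff, mul_one, one_mul]
  have hb2 : ¬ (Subgroup.centralizer ({b ^ 2} : Set G)).FiniteIndex := by
    rcases hcase2 with h | h
    · exact hBSQ G a b hCE (by rw [← h]; exact hu2)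
    · exact h
  obtain ⟨y, hyb, hyi, hy4⟩ := hBPW G b (hCEN G a b hCE).2.2.2 hb2
  obtain ⟨ω, δ, hω, hδ⟩ := hULT G a b hCE u hu huu hu1 (hSYC G u hSyl) hcu y hyb hyi hy4
  obtain ⟨⟨Q, hQ⟩, hQ2⟩ := hQSB G (ω : Filter G)
  set I : Set G := {i : G | ∃ g : G, i = g⁻¹ * u * g} with hI
  have hclo : Subgroup.closure I = Subgroup.normalClosure ({u} : Set G) := by
    rw [hI, ← TTW_conj]
    rfl
  have hIinf : I.Infinite := by
    intro hIf
    apply Set.infinite_univ (α := G)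
    refine (hIf.biUnion fun i _ => TTW_fibre u i hcu).subset fun g _ => ?_
    rw [Set.mem_iUnion₂]
    exact ⟨g⁻¹ * u * g, ⟨g, rfl⟩, rfl⟩
  have hfi : (Subgroup.closure I).FiniteIndex := by
    refine hNIN G a b hCE _ ?_ (hIinf.mono Subgroup.subset_closure)
    rw [hclo]
    exact Subgroup.normalClosure_normal
  have hQfi : Q.FiniteIndex := by
    refine hPSL G Q I δ ⟨u, 1, by group⟩ ?_ ?_ ?_ ?_ ?_ hfi
    · rintro g j ⟨h, rfl⟩
      exact ⟨h * g, by group⟩
    · rintro j ⟨g, rfl⟩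
      refine (hcu.preimage (f := fun x => g * x * g⁻¹) ?_).subset ?_
      · intro x _ x' _ hx
        have hx' : g * x * g⁻¹ = g * x' * g⁻¹ := hx
        exact mul_left_cancel (mul_right_cancel hx')
      · intro x hx
        have hx' : x ∈ Subgroup.centralizer ({g⁻¹ * u * g} : Set G) := hx
        rw [Subgroup.mem_centralizer_singleton_iff] at hx'
        change g * x * g⁻¹ ∈ Subgroup.centralizer ({u} : Set G)
        rw [Subgroup.mem_centralizer_singleton_iff]
        have h1 : g * (x * (g⁻¹ * u * g)) * g⁻¹ = g * (g⁻¹ * u * g * x) * g⁻¹ := by rw [hx']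
        have h2 : g * (x * (g⁻¹ * u * g)) * g⁻¹ = g * x * g⁻¹ * u := by group
        have h3 : g * (g⁻¹ * u * g * x) * g⁻¹ = u * (g * x * g⁻¹) := by group
        rw [h2, h3] at h1
        exact h1
    · rintro j ⟨g, hg⟩
      exact (hδ g j hg).1
    · rintro j ⟨g, hg⟩ k ⟨h, hh⟩
      rw [hQ]
      exact hQ2 _ _ (hδ g j hg).2.2 (hδ h k hh).2.2
    · rintro j ⟨g, hg⟩
      exact (hδ g j hg).2.1
  haveI : Group.FG G := by
    rw [Group.fg_iff]
    exact ⟨{a, b}, hgen, Set.toFinite _⟩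
  exact hQFI G ω Q hω hQ (hCQF G a b hCE Q hQfi) hQfi

end Pool.Agent.QI
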